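import Pool.Agent.V8H74.LR.MainF

/-!
# Locally residually finite varieties of associative algebras over a finite field

A set `S` of identities with coefficients in the finite field `F` (elements of the free
associative algebra without unit on countably many letters) defines a locally residually finite
variety if and only if some identity in `S` has a nonzero coefficient of a letter, or letters `i`,
`j` and a multiset `μ` of letters such that the sum of the coefficients of the words `i m j`, `m`
a word with multiset `μ` of letters, is not zero. Equivalently, the variety does not contain the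
variety of all algebras with `x (y z - z y) u = 0`.
-/

set_option autoImplicit false

namespace Pool.Agent.Results.MP_5aea19_al.LRFVarietiesF

/-- The value at `x` of an element `f` of the free associative algebra without unit: `f` is a
finite combination, with coefficients in `F`, of nonempty words in the letters `0, 1, 2, ...`. -/
noncomputable def value {F : Type} [Field F] {R : Type} [NonUnitalRing R] [Module F R]
    (x : ℕ → R) (f : FreeSemigroup ℕ →₀ F) : R :=
  f.sum fun w c => c • FreeSemigroup.lift x w

/-- The algebra `R` satisfies all identities in `S`. -/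
def Satisfies {F : Type} [Field F] (R : Type) [NonUnitalRing R] [Module F R]
    (S : Set (FreeSemigroup ℕ →₀ F)) : Prop :=
  ∀ f ∈ S, ∀ x : ℕ → R, value x f = 0

/-- Every nonzero element has a nonzero image under a homomorphism onto a finite-dimensional
algebra. -/
def ResiduallyFinite (F : Type) [Field F] (R : Type) [NonUnitalRing R] [Module F R] : Prop :=
  ∀ r : R, r ≠ 0 → ∃ (T : Type) (_ : NonUnitalRing T) (_ : Module F T) (_ : IsScalarTower F T T)
    (_ : SMulCommClass F T T) (φ : R →ₙₐ[F] T),
      Module.Finite F T ∧ Function.Surjective φ ∧ φ r ≠ 0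

/-- Every finitely generated algebra that satisfies `S` is residually finite. -/
def LocallyResiduallyFinite {F : Type} [Field F] (S : Set (FreeSemigroup ℕ →₀ F)) : Prop :=
  ∀ (R : Type) [NonUnitalRing R] [Module F R] [IsScalarTower F R R] [SMulCommClass F R R],
    (∃ G : Set R, G.Finite ∧ NonUnitalAlgebra.adjoin F G = ⊤) →
      Satisfies R S → ResiduallyFinite F R

open Classical in
/-- The sum of the coefficients in `f` of the words `i m j`, where `m` is a word (possibly empty)
whose multiset of letters is `μ`. -/
noncomputable def groupSum {F : Type} [Field F] (f : FreeSemigroup ℕ →₀ F) (i j : ℕ)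
    (μ : Multiset ℕ) : F :=
  ∑ w ∈ f.support.filter
    (fun w => w.head = i ∧ ∃ m : List ℕ, w.tail = m ++ [j] ∧ (m : Multiset ℕ) = μ), f w

theorem groupSum_eq {F : Type} [Field F] (f : FreeSemigroup ℕ →₀ F) (i j : ℕ) (μ : Multiset ℕ) :
    groupSum f i j μ = Pool.Agent.V8H74.LR.grp f i j μ := by
  classical
  rw [groupSum, Pool.Agent.V8H74.LR.grp, Finsupp.sum, Finset.sum_filter]

/-- **Classification of the locally residually finite varieties of associative algebras over a
finite field**, in terms of the coefficients of the identities, and in terms of the variety of all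
algebras with `x (y z - z y) u = 0`. -/
theorem result (F : Type) [Field F] [Finite F] (S : Set (FreeSemigroup ℕ →₀ F)) :
    (LocallyResiduallyFinite S ↔ ∃ f ∈ S,
      (∃ i, f (FreeSemigroup.of i) ≠ 0) ∨ ∃ i j μ, groupSum f i j μ ≠ 0) ∧
    (LocallyResiduallyFinite S ↔ ∃ (R : Type) (_ : NonUnitalRing R) (_ : Module F R)
      (_ : IsScalarTower F R R) (_ : SMulCommClass F R R),
        (∀ x y z u : R, x * (y * z - z * y) * u = 0) ∧ ¬ Satisfies R S) := by
  have h1 : (∃ f ∈ S, (∃ i, f (FreeSemigroup.of i) ≠ 0) ∨
      ∃ i j μ, groupSum f i j μ ≠ 0) ↔ Pool.Agent.V8H74.LR.CrF S := by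
    simp only [groupSum_eq]
    exact Iff.rfl
  have h2 : LocallyResiduallyFinite S ↔ ∃ f ∈ S,
      (∃ i, f (FreeSemigroup.of i) ≠ 0) ∨ ∃ i j μ, groupSum f i j μ ≠ 0 := by
    rw [h1]
    constructor
    · intro h
      by_contra hcon
      obtain ⟨R, iR, i1, i2, i3, hR, hS, r, hr, hφ⟩ := Pool.Agent.V8H74.LR.alg_nec hcon
      obtain ⟨T, iT, i4, i5, i6, φ, hT, _, h3⟩ := h R hR hS r hr
      have : Finite T := Module.finite_of_finite F
      exact h3 (hφ T (φ : R →ₙ+* T))
    · intro h R _ _ _ _ hR hS r hr
      obtain ⟨T, iT, i4, i5, i6, φ, hT, h4, h5⟩ := Pool.Agent.V8H74.LR.alg_suff h hR hS hr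
      exact ⟨T, iT, i4, i5, i6, φ, Module.Finite.of_finite, h4, h5⟩
  refine ⟨h2, h2.trans ?_⟩
  rw [h1]
  constructor
  · exact Pool.Agent.V8H74.LR.alg_sem
  · rintro ⟨R, _, _, _, _, hR, hS⟩
    by_contra hcon
    exact hS (Pool.Agent.V8H74.LR.satF_of_not hcon R hR)

end Pool.Agent.Results.MP_5aea19_al.LRFVarietiesF
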